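import Mathlib

/-!
# Finite complete string rewriting systems: basic facts (MP_56d4a1_al)
-/

set_option autoImplicit false

namespace H1.RW

open Relation

/-- One rewriting step of the rewriting system `R`: replace a factor which is the left side of a
rule by the right side of this rule. -/
def Step {α : Type} (R : List (List α × List α)) (u v : List α) : Prop :=
  ∃ x y : List α, ∃ p ∈ R, u = x ++ p.1 ++ y ∧ v = x ++ p.2 ++ y

/-- `R` is terminating: there is no infinite chain of rewriting steps. -/
def Terminating {α : Type} (R : List (List α × List α)) : Prop :=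
  WellFounded (fun v u : List α => Step R u v)

/-- `R` is confluent. -/
def Confluent {α : Type} (R : List (List α × List α)) : Prop :=
  ∀ u v w : List α, ReflTransGen (Step R) u v → ReflTransGen (Step R) u w →
    ∃ z : List α, ReflTransGen (Step R) v z ∧ ReflTransGen (Step R) w z

/-- The congruence on the free monoid generated by the rules of `R`. -/
def ruleCon {α : Type} (R : List (List α × List α)) : Con (FreeMonoid α) :=
  conGen (fun a b : FreeMonoid α =>
    ∃ p ∈ R, a = FreeMonoid.ofList p.1 ∧ b = FreeMonoid.ofList p.2)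

/-- `M` admits a finite complete rewriting system: it is isomorphic to the monoid presented by a
finite, terminating and confluent rewriting system over a finite alphabet. -/
def HasFCRS (M : Type) [Monoid M] : Prop :=
  ∃ n : ℕ, ∃ R : List (List (Fin n) × List (Fin n)), Terminating R ∧ Confluent R ∧
    Nonempty (M ≃* (ruleCon R).Quotient)

variable {α : Type} {R : List (List α × List α)}

/-- Irreducible words. -/
def Irred (R : List (List α × List α)) (u : List α) : Prop := ∀ v, ¬ Step R u v

theorem Step.context {u v : List α} (x y : List α) (h : Step R u v) :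
    Step R (x ++ u ++ y) (x ++ v ++ y) := by
  obtain ⟨a, b, p, hp, rfl, rfl⟩ := h
  exact ⟨x ++ a, b ++ y, p, hp, by simp, by simp⟩

theorem rtg_context {u v : List α} (x y : List α) (h : ReflTransGen (Step R) u v) :
    ReflTransGen (Step R) (x ++ u ++ y) (x ++ v ++ y) := by
  induction h with
  | refl => exact ReflTransGen.refl
  | tail _ h2 ih => exact ih.tail (h2.context x y)

theorem tg_context {u v : List α} (x y : List α) (h : TransGen (Step R) u v) :
    TransGen (Step R) (x ++ u ++ y) (x ++ v ++ y) := by
  induction h with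
  | single h => exact TransGen.single (h.context x y)
  | tail _ h2 ih => exact ih.tail (h2.context x y)

theorem exists_irred (hT : Terminating R) (u : List α) :
    ∃ v, ReflTransGen (Step R) u v ∧ Irred R v := by
  induction u using hT.induction with
  | _ u ih =>
    by_cases h : Irred R u
    · exact ⟨u, ReflTransGen.refl, h⟩
    · simp only [Irred, not_forall, not_not] at h
      obtain ⟨w, hw⟩ := h
      obtain ⟨v, hv, hv2⟩ := ih w hw
      exact ⟨v, ReflTransGen.head hw hv, hv2⟩

theorem irred_eq {u v : List α} (hu : Irred R u) (h : ReflTransGen (Step R) u v) : v = u := by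
  cases h.cases_head with
  | inl h => exact h.symm
  | inr h => obtain ⟨c, hc, _⟩ := h; exact absurd hc (hu c)

/-- Newman's lemma. -/
theorem newman {β : Type} {r : β → β → Prop} (hwf : WellFounded (fun v u => r u v))
    (hloc : ∀ u v w, r u v → r u w → ∃ z, ReflTransGen r v z ∧ ReflTransGen r w z) :
    ∀ u v w, ReflTransGen r u v → ReflTransGen r u w →
      ∃ z, ReflTransGen r v z ∧ ReflTransGen r w z := by
  intro u
  induction u using hwf.induction with
  | _ u ih =>
    intro v w hv hw
    rcases hv.cases_head with rfl | ⟨v1, hv1, hv⟩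
    · exact ⟨w, hw, ReflTransGen.refl⟩
    rcases hw.cases_head with rfl | ⟨w1, hw1, hw⟩
    · exact ⟨v, ReflTransGen.refl, ReflTransGen.head hv1 hv⟩
    obtain ⟨z, hz1, hz2⟩ := hloc u v1 w1 hv1 hw1
    obtain ⟨a, ha1, ha2⟩ := ih v1 hv1 v z hv hz1
    obtain ⟨b, hb1, hb2⟩ := ih w1 hw1 a w (hz2.trans ha2) hw
    exact ⟨b, ha1.trans hb1, hb2⟩

/-- Joinability is a congruence. -/
def joinCon (hC : Confluent R) : Con (FreeMonoid α) where
  r u v := ∃ z, ReflTransGen (Step R) u.toList z ∧ ReflTransGen (Step R) v.toList z
  iseqv := by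
    refine ⟨fun u => ⟨u.toList, ReflTransGen.refl, ReflTransGen.refl⟩, ?_, ?_⟩
    · rintro u v ⟨z, h1, h2⟩
      exact ⟨z, h2, h1⟩
    · rintro u v w ⟨z, h1, h2⟩ ⟨z', h3, h4⟩
      obtain ⟨t, ht1, ht2⟩ := hC _ _ _ h2 h3
      exact ⟨t, h1.trans ht1, h4.trans ht2⟩
  mul' := by
    rintro a b c d ⟨z, h1, h2⟩ ⟨z', h3, h4⟩
    refine ⟨z ++ z', ?_, ?_⟩
    · rw [FreeMonoid.toList_mul]
      have e1 := rtg_context [] c.toList h1
      have e2 := rtg_context z [] h3
      simp only [List.nil_append, List.append_nil] at e1 e2
      exact e1.trans e2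
    · rw [FreeMonoid.toList_mul]
      have e1 := rtg_context [] d.toList h2
      have e2 := rtg_context z [] h4
      simp only [List.nil_append, List.append_nil] at e1 e2
      exact e1.trans e2

theorem join_of_con (hC : Confluent R) {u v : List α}
    (h : ruleCon R (FreeMonoid.ofList u) (FreeMonoid.ofList v)) :
    ∃ z, ReflTransGen (Step R) u z ∧ ReflTransGen (Step R) v z := by
  have hle : ruleCon R ≤ joinCon hC := by
    unfold ruleCon
    rw [Con.conGen_le]
    rintro a b ⟨p, hp, rfl, rfl⟩
    refine ⟨p.2, ?_, ReflTransGen.refl⟩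
    exact ReflTransGen.single ⟨[], [], p, hp, by simp, by simp⟩
  exact hle h

theorem con_of_step {u v : List α} (h : Step R u v) :
    ruleCon R (FreeMonoid.ofList u) (FreeMonoid.ofList v) := by
  obtain ⟨a, b, p, hp, rfl, rfl⟩ := h
  rw [FreeMonoid.ofList_append, FreeMonoid.ofList_append, FreeMonoid.ofList_append,
    FreeMonoid.ofList_append]
  refine (ruleCon R).mul ((ruleCon R).mul ((ruleCon R).refl _) ?_) ((ruleCon R).refl _)
  exact ConGen.Rel.of _ _ ⟨p, hp, rfl, rfl⟩

/-- The class of a word in the monoid presented by `R`. -/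
def cls (R : List (List α × List α)) (u : List α) : (ruleCon R).Quotient :=
  ((FreeMonoid.ofList u : FreeMonoid α) : (ruleCon R).Quotient)

theorem cls_append (u v : List α) : cls R (u ++ v) = cls R u * cls R v := by
  unfold cls
  rw [FreeMonoid.ofList_append, Con.coe_mul]

theorem cls_nil : cls R [] = 1 := by
  unfold cls
  rw [FreeMonoid.ofList_nil, Con.coe_one]

theorem cls_eq_of_rtg {u v : List α} (h : ReflTransGen (Step R) u v) : cls R u = cls R v := by
  induction h with
  | refl => rfl
  | tail _ h2 ih =>
    rw [ih]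
    exact (Con.eq _).2 (con_of_step h2)

/-- The data extracted from a finite complete rewriting system of a monoid. -/
theorem data_of_equiv {M : Type} [Monoid M] (hT : Terminating R) (hC : Confluent R)
    (e : M ≃* (ruleCon R).Quotient) :
    ∃ φ : FreeMonoid α →* M, (∀ u, φ u = e.symm (u : (ruleCon R).Quotient)) ∧
      Function.Surjective φ ∧
      (∀ u v, Step R u v → φ (FreeMonoid.ofList u) = φ (FreeMonoid.ofList v)) ∧
      (∀ u v, Irred R u → Irred R v → φ (FreeMonoid.ofList u) = φ (FreeMonoid.ofList v) → u = v) := by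
  refine ⟨e.symm.toMonoidHom.comp (ruleCon R).mk', fun u => rfl, ?_, ?_, ?_⟩
  · intro m
    obtain ⟨u, hu⟩ := Con.mk'_surjective (e m)
    refine ⟨u, ?_⟩
    simp only [MonoidHom.coe_comp, Function.comp_apply, hu]
    simp
  · intro u v h
    simp only [MonoidHom.coe_comp, Function.comp_apply]
    congr 1
    exact (Con.eq _).2 (con_of_step h)
  · intro u v hu hv h
    simp only [MonoidHom.coe_comp, Function.comp_apply] at h
    have h2 : ((ruleCon R).mk' (FreeMonoid.ofList u)) = (ruleCon R).mk' (FreeMonoid.ofList v) :=
      e.symm.injective h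
    have h3 : ruleCon R (FreeMonoid.ofList u) (FreeMonoid.ofList v) := (Con.eq _).1 h2
    obtain ⟨z, hz1, hz2⟩ := join_of_con hC h3
    rw [← irred_eq hu hz1, ← irred_eq hv hz2]

end H1.RW
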