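import Pool.Agent.H1.RW.Iso

/-!
# Building cores; subgroups of finite index (MP_56d4a1_al)
-/

set_option autoImplicit false

namespace H1.RW

open Relation

/-- Building a core from the finiteness of the set of first-return words. -/
theorem exists_core {A G H X : Type} [Group G] [Group H]
    (RA : List (List A × List A)) (term : Terminating RA) (φ : FreeMonoid A →* H)
    (surj : Function.Surjective φ)
    (resp : ∀ u v, Step RA u v → φ (FreeMonoid.ofList u) = φ (FreeMonoid.ofList v))
    (uniq : ∀ u v, Irred RA u → Irred RA v →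
      φ (FreeMonoid.ofList u) = φ (FreeMonoid.ofList v) → u = v)
    (ι : G →* H) (inj : Function.Injective ι) (x0 : X) (r : X → H) (r_x0 : r x0 = 1)
    (r_inj : ∀ x y g, r x = ι g * r y → x = y)
    (hfin : {p : X × List A | p.2 ≠ [] ∧ Irred RA p.2 ∧
      (∃ y g, r p.1 * φ (FreeMonoid.ofList p.2) = ι g * r y) ∧
      ∀ q s, q ++ s = p.2 → q ≠ [] → s ≠ [] → ∀ z g,
        r p.1 * φ (FreeMonoid.ofList q) ≠ ι g * r z}.Finite) :
    Nonempty (Core A G H X) := by
  classical
  set B := {p : X × List A | p.2 ≠ [] ∧ Irred RA p.2 ∧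
      (∃ y g, r p.1 * φ (FreeMonoid.ofList p.2) = ι g * r y) ∧
      ∀ q s, q ++ s = p.2 → q ≠ [] → s ≠ [] → ∀ z g,
        r p.1 * φ (FreeMonoid.ofList q) ≠ ι g * r z} with hB
  have := hfin.fintype
  let e : Fin (Fintype.card B) ≃ B := (Fintype.equivFin B).symm
  refine ⟨{
    RA := RA
    term := term
    φ := φ
    surj := surj
    resp := resp
    uniq := uniq
    ι := ι
    inj := inj
    x0 := x0
    r := r
    r_x0 := r_x0
    r_inj := r_inj
    N := Fintype.card B
    src := fun b => (e b).1.1
    tgt := fun b => (e b).2.2.2.1.choose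
    wd := fun b => (e b).1.2
    wd_T := fun b => (e b).2.2.2.1.choose_spec
    wd_ne := fun b => (e b).2.1
    wd_irr := fun b => (e b).2.2.1
    wd_first := fun b p s h1 h2 h3 z g => (e b).2.2.2.2 p s h1 h2 h3 z g
    wd_all := ?_
    wd_inj := ?_ }⟩
  · intro x w y g h1 h2 h3 h4
    have hm : (x, w) ∈ B := ⟨h1, h2, ⟨y, g, h3⟩, h4⟩
    refine ⟨e.symm ⟨(x, w), hm⟩, ?_, ?_⟩
    · simp
    · simp
  · intro b b' h1 h2
    apply e.injective
    apply Subtype.ext
    exact Prod.ext h1 h2

/-- A convenient form: a group with a finite complete rewriting system, as data. -/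
theorem HasFCRS.data {H : Type} [Group H] (h : HasFCRS H) :
    ∃ (n : ℕ) (RA : List (List (Fin n) × List (Fin n))) (φ : FreeMonoid (Fin n) →* H),
      Terminating RA ∧ Function.Surjective φ ∧
      (∀ u v, Step RA u v → φ (FreeMonoid.ofList u) = φ (FreeMonoid.ofList v)) ∧
      (∀ u v, Irred RA u → Irred RA v →
        φ (FreeMonoid.ofList u) = φ (FreeMonoid.ofList v) → u = v) := by
  obtain ⟨n, RA, h1, h2, ⟨e⟩⟩ := h
  obtain ⟨φ, _, h3, h4, h5⟩ := data_of_equiv h1 h2 e
  exact ⟨n, RA, φ, h1, h3, h4, h5⟩

/-- Subgroups of finite index. -/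
theorem finiteIndex (H : Type) [Group H] (G : Subgroup H) [G.FiniteIndex] (h : HasFCRS H) :
    HasFCRS (Monoid.Coprod G (FreeGroup (Fin (G.index - 1)))) := by
  classical
  obtain ⟨n, RA, φ, h1, h3, h4, h5⟩ := h.data
  let X := Quotient (QuotientGroup.rightRel G)
  let x0 : X := Quotient.mk _ (1 : H)
  let r : X → H := fun x => if x = x0 then 1 else x.out
  have hr : ∀ x : X, (Quotient.mk (QuotientGroup.rightRel G) (r x) : X) = x := by
    intro x
    by_cases hx : x = x0
    · simp only [r, if_pos hx]
      exact hx.symm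
    · simp only [r, if_neg hx]
      exact Quotient.out_eq x
  have hall : ∀ h : H, ∃ (y : X) (g : G), h = G.subtype g * r y := by
    intro h
    refine ⟨Quotient.mk _ h, ?_⟩
    have h6 : QuotientGroup.rightRel G (r (Quotient.mk _ h)) h := Quotient.exact (hr _)
    rw [QuotientGroup.rightRel_apply] at h6
    refine ⟨⟨_, h6⟩, ?_⟩
    simp
  have hfinX : Finite X :=
    Finite.of_equiv _ (QuotientGroup.quotientRightRelEquivQuotientLeftRel G).symm
  have hcard : Nat.card X = G.index :=
    Nat.card_congr (QuotientGroup.quotientRightRelEquivQuotientLeftRel G)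
  obtain ⟨C⟩ := exists_core RA h1 φ h3 h4 h5 G.subtype G.subtype_injective x0 r
    (by simp only [r, if_pos rfl]) (by
      intro x y g hg
      rw [← hr x, ← hr y]
      apply Quotient.sound
      change QuotientGroup.rightRel G (r x) (r y)
      rw [QuotientGroup.rightRel_apply, hg]
      have : r y * (G.subtype g * r y)⁻¹ = ((g⁻¹ : G) : H) := by
        rw [mul_inv_rev, ← mul_assoc, mul_inv_cancel, one_mul]
        rfl
      rw [this]
      exact (g⁻¹ : G).2) (by
      refine (Set.finite_range (fun p : X × Fin n => (p.1, [p.2]))).subset ?_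
      rintro ⟨x, w⟩ ⟨hw1, _, _, hw4⟩
      cases w with
      | nil => exact absurd rfl hw1
      | cons a w =>
        cases w with
        | nil => exact ⟨(x, a), rfl⟩
        | cons b w =>
          exfalso
          obtain ⟨y, g, hyg⟩ := hall (r x * φ (FreeMonoid.ofList [a]))
          exact hw4 [a] (b :: w) rfl (by simp) (by simp) y g hyg)
  have hpos : 0 < G.index := Nat.pos_of_ne_zero Subgroup.FiniteIndex.index_ne_zero
  exact C.hasFCRS_fin (G.index - 1) (by rw [hcard]; omega)

end H1.RW
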