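import Pool.Agent.H1.RW.Basic

/-!
# From a finite complete system of `H` to one of `G * F` (MP_56d4a1_al)

`G` is a subgroup of `H` (through an injective homomorphism `ι`), `V` is the union of the finitely
many right cosets `G r(x)`, `x ∈ X`. The letters of the new system are the irreducible words which
lead from a coset in `V` to a coset in `V` with all intermediate prefixes outside `V`.
-/

set_option autoImplicit false

namespace H1.RW

open Relation

/-- The data of a core: a finite complete rewriting system `RA` of `H` (given by `φ`), a subgroup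
`ι : G → H`, finitely many right cosets with representatives `r x`, and the finitely many
first-return words. -/
structure Core (A G H X : Type) [Group G] [Group H] where
  /-- the rules -/
  RA : List (List A × List A)
  term : Terminating RA
  /-- the evaluation -/
  φ : FreeMonoid A →* H
  surj : Function.Surjective φ
  resp : ∀ u v, Step RA u v → φ (FreeMonoid.ofList u) = φ (FreeMonoid.ofList v)
  uniq : ∀ u v, Irred RA u → Irred RA v →
    φ (FreeMonoid.ofList u) = φ (FreeMonoid.ofList v) → u = v
  /-- the subgroup -/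
  ι : G →* H
  inj : Function.Injective ι
  /-- the base coset -/
  x0 : X
  /-- the representatives -/
  r : X → H
  r_x0 : r x0 = 1
  r_inj : ∀ x y g, r x = ι g * r y → x = y
  /-- the number of letters -/
  N : ℕ
  /-- start of a letter -/
  src : Fin N → X
  /-- end of a letter -/
  tgt : Fin N → X
  /-- the word of a letter -/
  wd : Fin N → List A
  wd_T : ∀ b, ∃ g, r (src b) * φ (FreeMonoid.ofList (wd b)) = ι g * r (tgt b)
  wd_ne : ∀ b, wd b ≠ []
  wd_irr : ∀ b, Irred RA (wd b)
  wd_first : ∀ b p s, p ++ s = wd b → p ≠ [] → s ≠ [] →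
    ∀ z g, r (src b) * φ (FreeMonoid.ofList p) ≠ ι g * r z
  wd_all : ∀ x w y g, w ≠ [] → Irred RA w → r x * φ (FreeMonoid.ofList w) = ι g * r y →
    (∀ p s, p ++ s = w → p ≠ [] → s ≠ [] →
      ∀ z g', r x * φ (FreeMonoid.ofList p) ≠ ι g' * r z) → ∃ b, src b = x ∧ wd b = w
  wd_inj : ∀ b b', src b = src b' → wd b = wd b' → b = b'

namespace Core

variable {A G H X : Type} [Group G] [Group H] (C : Core A G H X)

/-- `h` leads from the coset of `x` to the coset of `y`. -/
def T (x : X) (h : H) (y : X) : Prop := ∃ g, C.r x * h = C.ι g * C.r y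

variable {C}

theorem T.unique {x y y' : X} {h : H} (h1 : C.T x h y) (h2 : C.T x h y') : y = y' := by
  obtain ⟨g, hg⟩ := h1
  obtain ⟨g', hg'⟩ := h2
  apply C.r_inj y y' (g⁻¹ * g')
  rw [map_mul, map_inv, mul_assoc, ← hg', hg]
  group

theorem T.mul {x y z : X} {h h' : H} (h1 : C.T x h y) (h2 : C.T y h' z) : C.T x (h * h') z := by
  obtain ⟨g, hg⟩ := h1
  obtain ⟨g', hg'⟩ := h2
  refine ⟨g * g', ?_⟩
  rw [← mul_assoc, hg, mul_assoc, hg', map_mul, mul_assoc]

theorem T.one (x : X) : C.T x 1 x := ⟨1, by simp⟩

theorem T.cancel {x y z : X} {h h' : H} (h1 : C.T x h y) (h2 : C.T x (h * h') z) :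
    C.T y h' z := by
  obtain ⟨g, hg⟩ := h1
  obtain ⟨g', hg'⟩ := h2
  refine ⟨g⁻¹ * g', ?_⟩
  calc C.r y * h' = (C.ι g)⁻¹ * (C.ι g * C.r y) * h' := by group
    _ = (C.ι g)⁻¹ * (C.r x * (h * h')) := by rw [← hg]; group
    _ = C.ι (g⁻¹ * g') * C.r z := by rw [hg', map_mul, map_inv]; group

theorem T.inv {x y : X} {h : H} (h1 : C.T x h y) : C.T y h⁻¹ x := by
  apply T.cancel h1
  rw [mul_inv_cancel]
  exact T.one x

variable (C)

/-- Typed words. -/
def Path : X → List (Fin C.N) → X → Prop
  | x, [], y => x = y
  | x, b :: u, y => C.src b = x ∧ Path (C.tgt b) u y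

/-- The expansion of a word. -/
def ex (u : List (Fin C.N)) : List A := u.flatMap C.wd

variable {C}

theorem ex_append (u v : List (Fin C.N)) : C.ex (u ++ v) = C.ex u ++ C.ex v := by
  simp [ex]

theorem ex_cons (b : Fin C.N) (v : List (Fin C.N)) : C.ex (b :: v) = C.wd b ++ C.ex v := by
  simp [ex]

theorem ex_nil : C.ex [] = [] := rfl

theorem length_le_ex (u : List (Fin C.N)) : u.length ≤ (C.ex u).length := by
  induction u with
  | nil => simp
  | cons b u ih =>
    rw [ex_cons, List.length_cons, List.length_append]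
    have := List.length_pos_iff.2 (C.wd_ne b)
    omega

theorem path_append {x z : X} {u v : List (Fin C.N)} :
    C.Path x (u ++ v) z ↔ ∃ y, C.Path x u y ∧ C.Path y v z := by
  induction u generalizing x with
  | nil => simp [Path]
  | cons b u ih =>
    simp only [List.cons_append, Path, ih]
    constructor
    · rintro ⟨h1, y, h2, h3⟩
      exact ⟨y, ⟨h1, h2⟩, h3⟩
    · rintro ⟨y, ⟨h1, h2⟩, h3⟩
      exact ⟨h1, y, h2, h3⟩

theorem Path.start {x y x' y' : X} {u : List (Fin C.N)} (hu : u ≠ []) (h : C.Path x u y)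
    (h' : C.Path x' u y') : x = x' := by
  cases u with
  | nil => exact absurd rfl hu
  | cons b u => exact h.1.symm.trans h'.1

theorem Path.end_eq {x y y' : X} {u : List (Fin C.N)} (h : C.Path x u y)
    (h' : C.Path x u y') : y = y' := by
  induction u generalizing x with
  | nil => exact h.symm.trans h'
  | cons b u ih => exact ih h.2 h'.2

theorem Path.T {x y : X} {u : List (Fin C.N)} (h : C.Path x u y) :
    C.T x (C.φ (FreeMonoid.ofList (C.ex u))) y := by
  induction u generalizing x with
  | nil =>
    have : x = y := h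
    subst this
    rw [ex_nil, FreeMonoid.ofList_nil, map_one]
    exact T.one x
  | cons b u ih =>
    rw [ex_cons, FreeMonoid.ofList_append, map_mul]
    have h1 := C.wd_T b
    rw [h.1] at h1
    exact T.mul h1 (ih h.2)

/-- Existence of decompositions. -/
theorem exists_decomp (n : ℕ) : ∀ (w : List A) (x y : X), w.length ≤ n → Irred C.RA w →
    C.T x (C.φ (FreeMonoid.ofList w)) y → ∃ u, C.Path x u y ∧ C.ex u = w := by
  induction n with
  | zero =>
    intro w x y hw _ hT
    have : w = [] := by
      cases w with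
      | nil => rfl
      | cons a w => simp at hw
    subst this
    refine ⟨[], ?_, rfl⟩
    rw [FreeMonoid.ofList_nil, map_one] at hT
    exact T.unique (T.one x) hT
  | succ n ih =>
    intro w x y hw hirr hT
    by_cases hw0 : w = []
    · exact ih w x y (by simp [hw0]) hirr hT
    classical
    -- the first return
    have hex : ∃ k, 0 < k ∧ k ≤ w.length ∧
        ∃ z, C.T x (C.φ (FreeMonoid.ofList (w.take k))) z :=
      ⟨w.length, List.length_pos_iff.2 hw0, le_refl _, y, by rwa [List.take_length]⟩
    set k := Nat.find hex with hk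
    obtain ⟨hk0, hkl, z, hz⟩ := Nat.find_spec hex
    rw [← hk] at hk0 hkl hz
    have hmin : ∀ j, j < k → ¬ (0 < j ∧ j ≤ w.length ∧
        ∃ z, C.T x (C.φ (FreeMonoid.ofList (w.take j))) z) := fun j hj => Nat.find_min hex hj
    have hsplit : w.take k ++ w.drop k = w := List.take_append_drop k w
    have hirr1 : Irred C.RA (w.take k) := by
      intro v hv
      have := hv.context [] (w.drop k)
      rw [List.nil_append, hsplit] at this
      exact hirr _ this
    have hirr2 : Irred C.RA (w.drop k) := by
      intro v hv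
      have := hv.context (w.take k) []
      rw [List.append_nil, hsplit] at this
      exact hirr _ this
    have hne : w.take k ≠ [] := by
      intro h
      have := congrArg List.length h
      rw [List.length_take, List.length_nil] at this
      omega
    obtain ⟨g, hg⟩ := hz
    obtain ⟨b, hb1, hb2⟩ := C.wd_all x (w.take k) z g hne hirr1 hg (by
      intro p s hps hp hs z' g' hc
      have hlen : p.length + s.length = (w.take k).length := by
        rw [← hps, List.length_append]
      rw [List.length_take, min_eq_left hkl] at hlen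
      have hp' := List.length_pos_iff.2 hp
      have hs' := List.length_pos_iff.2 hs
      refine hmin p.length (by omega) ⟨hp', by omega, z', g', ?_⟩
      have : w.take p.length = p := by
        rw [← hsplit, ← hps, List.append_assoc, List.take_left]
      rw [this]
      exact hc)
    have hz' : C.T x (C.φ (FreeMonoid.ofList (w.take k))) z := ⟨g, hg⟩
    have hzb : C.tgt b = z := by
      have h1 := C.wd_T b
      rw [hb1, hb2] at h1
      exact T.unique h1 hz'
    have hT2 : C.T z (C.φ (FreeMonoid.ofList (w.drop k))) y := by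
      refine T.cancel hz' ?_
      rw [← map_mul, ← FreeMonoid.ofList_append, hsplit]
      exact hT
    obtain ⟨u, hu1, hu2⟩ := ih (w.drop k) z y (by rw [List.length_drop]; omega) hirr2 hT2
    refine ⟨b :: u, ⟨hb1, by rw [hzb]; exact hu1⟩, ?_⟩
    rw [ex_cons, hb2, hu2, hsplit]

/-- Uniqueness of decompositions. -/
theorem decomp_unique {x y y' : X} {u u' : List (Fin C.N)} (h : C.Path x u y)
    (h' : C.Path x u' y') (he : C.ex u = C.ex u') : u = u' := by
  induction u generalizing x u' with
  | nil =>
    cases u' with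
    | nil => rfl
    | cons b' u' =>
      rw [ex_nil, ex_cons] at he
      exact absurd (List.append_eq_nil_iff.1 he.symm).1 (C.wd_ne b')
  | cons b u ih =>
    cases u' with
    | nil =>
      rw [ex_nil, ex_cons] at he
      exact absurd (List.append_eq_nil_iff.1 he).1 (C.wd_ne b)
    | cons b' u' =>
      rw [ex_cons, ex_cons] at he
      have hs : C.src b = C.src b' := h.1.trans h'.1.symm
      have key : C.wd b = C.wd b' := by
        rcases List.append_eq_append_iff.1 he with ⟨s, hs1, hs2⟩ | ⟨s, hs1, hs2⟩
        · by_cases hs0 : s = []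
          · rw [hs1, hs0, List.append_nil]
          · exfalso
            obtain ⟨g, hg⟩ := C.wd_T b
            refine C.wd_first b' (C.wd b) s hs1.symm (C.wd_ne b) hs0 (C.tgt b) g ?_
            rw [← hs]; exact hg
        · by_cases hs0 : s = []
          · rw [hs1, hs0, List.append_nil]
          · exfalso
            obtain ⟨g, hg⟩ := C.wd_T b'
            refine C.wd_first b (C.wd b') s hs1.symm (C.wd_ne b') hs0 (C.tgt b') g ?_
            rw [hs]; exact hg
      have hb : b = b' := C.wd_inj b b' hs key
      subst hb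
      rw [ih h.2 h'.2 (List.append_cancel_left he)]

variable (C)

/-- The bound for the length of the left sides. -/
def L : ℕ := (C.RA.map (fun p => p.1.length)).sum + 2

/-- The rules of the new system, as a set. -/
def ruleSet : Set (List (Fin C.N) × List (Fin C.N)) :=
  {p | p.1.length ≤ C.L ∧ ¬ Irred C.RA (C.ex p.1) ∧ Irred C.RA (C.ex p.2) ∧
    C.φ (FreeMonoid.ofList (C.ex p.1)) = C.φ (FreeMonoid.ofList (C.ex p.2)) ∧
    ∃ x y, C.Path x p.1 y ∧ C.Path x p.2 y}

variable {C}

theorem length_le_L {p : List A × List A} (hp : p ∈ C.RA) : p.1.length + 2 ≤ C.L := by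
  unfold L
  have : p.1.length ≤ (C.RA.map (fun p => p.1.length)).sum :=
    List.single_le_sum (by intro _ _; exact Nat.zero_le _) _ (List.mem_map_of_mem hp)
  omega

theorem irred_nil : Irred C.RA [] := by
  intro v hv
  obtain ⟨a, b, p, hp, h1, h2⟩ := hv
  have hp1 : p.1 = [] := by
    have := congrArg List.length h1
    simp only [List.length_nil, List.length_append] at this
    exact List.length_eq_zero_iff.1 (by omega)
  obtain ⟨w, _, hw⟩ := exists_irred C.term ([] : List A)
  exact hw (p.2 ++ w) ⟨[], w, p, hp, by simp [hp1], by simp⟩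

theorem ruleSet_ne {p : List (Fin C.N) × List (Fin C.N)} (hp : p ∈ C.ruleSet) : p.1 ≠ [] := by
  intro h
  apply hp.2.1
  rw [h, ex_nil]
  exact irred_nil

theorem ruleSet_finite : C.ruleSet.Finite := by
  classical
  let f : List (Fin C.N) → List (Fin C.N) × List (Fin C.N) := fun u =>
    (u, if h : ∃ v, (u, v) ∈ C.ruleSet then h.choose else [])
  refine ((List.finite_length_le (Fin C.N) C.L).image f).subset ?_
  rintro ⟨u, v⟩ huv
  refine ⟨u, huv.1, ?_⟩
  have hex : ∃ v, (u, v) ∈ C.ruleSet := ⟨v, huv⟩
  simp only [f]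
  rw [dif_pos hex]
  have h2 := hex.choose_spec
  refine Prod.ext rfl ?_
  obtain ⟨_, _, hv1, hv2, x, y, hx1, hx2⟩ := huv
  obtain ⟨_, _, hw1, hw2, x', y', hx1', hx2'⟩ := h2
  have hne := ruleSet_ne hex.choose_spec
  have hxx : x = x' := Path.start hne hx1 hx1'
  subst hxx
  refine decomp_unique hx2' hx2 (C.uniq _ _ hw1 hv1 ?_)
  exact hw2.symm.trans hv2

variable (C)

/-- The rules of the new system. -/
noncomputable def RS : List (List (Fin C.N) × List (Fin C.N)) :=
  (ruleSet_finite (C := C)).toFinset.toList

variable {C}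

theorem mem_RS {p : List (Fin C.N) × List (Fin C.N)} : p ∈ C.RS ↔ p ∈ C.ruleSet := by
  unfold RS
  rw [Finset.mem_toList, Set.Finite.mem_toFinset]

/-- Expansion of a step. -/
theorem ex_step {u v : List (Fin C.N)} (h : Step C.RS u v) :
    TransGen (Step C.RA) (C.ex u) (C.ex v) := by
  obtain ⟨a, b, p, hp, rfl, rfl⟩ := h
  rw [mem_RS] at hp
  obtain ⟨_, hp1, hp2, hp3, _⟩ := hp
  simp only [ex_append]
  apply tg_context
  obtain ⟨w, hw1, hw2⟩ := exists_irred C.term (C.ex p.1)
  have hw3 : C.φ (FreeMonoid.ofList (C.ex p.1)) = C.φ (FreeMonoid.ofList w) := by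
    clear hw2
    induction hw1 with
    | refl => rfl
    | tail _ h2 ih => exact ih.trans (C.resp _ _ h2)
  have hw4 : w = C.ex p.2 := C.uniq _ _ hw2 hp2 (hw3.symm.trans hp3)
  subst hw4
  rcases Relation.reflTransGen_iff_eq_or_transGen.1 hw1 with h | h
  · exfalso
    apply hp1
    rw [← h]
    exact hp2
  · exact h

theorem terminating_RS : Terminating C.RS := by
  have h1 : WellFounded (fun v u : List A => TransGen (Step C.RA) u v) := by
    have := C.term.transGen
    refine Subrelation.wf ?_ this
    intro v u h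
    rw [← Relation.transGen_swap]
    exact h
  have h2 := InvImage.wf (C.ex) h1
  refine Subrelation.wf ?_ h2
  intro v u h
  exact ex_step h

theorem phi_step {u v : List (Fin C.N)} (h : Step C.RS u v) :
    C.φ (FreeMonoid.ofList (C.ex u)) = C.φ (FreeMonoid.ofList (C.ex v)) := by
  have h1 := ex_step h
  generalize C.ex v = w at h1
  induction h1 with
  | single h => exact C.resp _ _ h
  | tail _ h2 ih => exact ih.trans (C.resp _ _ h2)

theorem path_step {u v : List (Fin C.N)} {x y : X} (h : Step C.RS u v) (hp : C.Path x u y) :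
    C.Path x v y := by
  obtain ⟨a, b, p, hpR, rfl, rfl⟩ := h
  rw [mem_RS] at hpR
  have hne := ruleSet_ne hpR
  obtain ⟨_, _, _, _, x', y', h1, h2⟩ := hpR
  rw [path_append] at hp
  obtain ⟨z, hp, hb⟩ := hp
  rw [path_append] at hp
  obtain ⟨z', ha, hp⟩ := hp
  have e1 : z' = x' := Path.start hne hp h1
  subst e1
  have e2 : z = y' := Path.end_eq hp h1
  subst e2
  rw [path_append]
  refine ⟨z, ?_, hb⟩
  rw [path_append]
  exact ⟨z', ha, h2⟩

/-- A typed word with reducible expansion has a short factor with reducible expansion. -/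
theorem exists_short (n : ℕ) : ∀ u : List (Fin C.N), u.length ≤ n → ¬ Irred C.RA (C.ex u) →
    ∃ a u' b, u = a ++ u' ++ b ∧ u'.length ≤ C.L ∧ ¬ Irred C.RA (C.ex u') := by
  induction n with
  | zero =>
    intro u hu h
    exact ⟨[], u, [], by simp, by omega, h⟩
  | succ n ih =>
    intro u hu h
    by_cases hL : u.length ≤ C.L
    · exact ⟨[], u, [], by simp, hL, h⟩
    have hL2 : 2 ≤ C.L := by unfold L; omega
    obtain ⟨b, m, c, rfl⟩ : ∃ b m c, u = b :: (m ++ [c]) := by
      cases u with
      | nil => simp at hL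
      | cons b t =>
        rcases List.eq_nil_or_concat t with rfl | ⟨m, c, rfl⟩
        · exfalso; simp at hL; omega
        · exact ⟨b, m, c, by simp⟩
    by_cases h1 : Irred C.RA (C.ex (b :: m))
    swap
    · obtain ⟨a, u', d, h2, h3, h4⟩ := ih (b :: m) (by
        simp only [List.length_cons, List.length_append, List.length_nil] at hu ⊢
        omega) h1
      refine ⟨a, u', d ++ [c], ?_, h3, h4⟩
      have : b :: (m ++ [c]) = (b :: m) ++ [c] := by simp
      rw [this, h2]
      simp
    by_cases h2 : Irred C.RA (C.ex (m ++ [c]))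
    swap
    · obtain ⟨a, u', d, h2, h3, h4⟩ := ih (m ++ [c]) (by
        simp only [List.length_cons, List.length_append, List.length_nil] at hu ⊢
        omega) h2
      refine ⟨b :: a, u', d, ?_, h3, h4⟩
      rw [h2]
      simp
    exfalso
    simp only [Irred, not_forall, not_not] at h
    obtain ⟨v, p, s, q, hq, hps, _⟩ := h
    have e1 : C.ex (b :: (m ++ [c])) = C.wd b ++ (C.ex m ++ C.wd c) := by
      rw [ex_cons, ex_append, ex_cons, ex_nil, List.append_nil]
    rw [e1] at hps
    -- the occurrence starts inside the first letter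
    have hp : p.length < (C.wd b).length := by
      by_contra hcon
      push Not at hcon
      rw [List.append_assoc] at hps
      rcases List.append_eq_append_iff.1 hps with ⟨t, ht1, ht2⟩ | ⟨t, ht1, ht2⟩
      · apply h2 (t ++ q.2 ++ s)
        refine ⟨t, s, q, hq, ?_, rfl⟩
        rw [ex_append, ex_cons, ex_nil, List.append_nil, ht2, List.append_assoc]
      · have ht : t = [] := by
          have := congrArg List.length ht1
          rw [List.length_append] at this
          exact List.length_eq_zero_iff.1 (by omega)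
        apply h2 (q.2 ++ s)
        refine ⟨[], s, q, hq, ?_, by simp⟩
        rw [ex_append, ex_cons, ex_nil, List.append_nil]
        rw [ht, List.nil_append] at ht2
        rw [List.nil_append, ← ht2]
    have hs : s.length < (C.wd c).length := by
      by_contra hcon
      push Not at hcon
      have hps' : (C.wd b ++ C.ex m) ++ C.wd c = (p ++ q.1) ++ s := by
        rw [← hps]; simp
      rcases List.append_eq_append_iff.1 hps' with ⟨t, ht1, ht2⟩ | ⟨t, ht1, ht2⟩
      · have ht : t = [] := by
          have := congrArg List.length ht2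
          rw [List.length_append] at this
          exact List.length_eq_zero_iff.1 (by omega)
        apply h1 (p ++ q.2)
        refine ⟨p, [], q, hq, ?_, by simp⟩
        rw [ex_cons]
        rw [ht, List.append_nil] at ht1
        rw [List.append_nil, ← ht1]
      · apply h1 (p ++ q.2 ++ t)
        refine ⟨p, t, q, hq, ?_, rfl⟩
        rw [ex_cons, ht1]
    have hlen := congrArg List.length hps
    simp only [List.length_append] at hlen
    have h5 := length_le_ex (C := C) m
    have h6 := length_le_L hq
    simp only [List.length_cons, List.length_append, List.length_nil] at hL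
    omega

/-- A typed word with reducible expansion is reducible. -/
theorem exists_step {u : List (Fin C.N)} {x y : X} (hp : C.Path x u y)
    (h : ¬ Irred C.RA (C.ex u)) : ∃ v, Step C.RS u v := by
  obtain ⟨a, u', b, rfl, h2, h3⟩ := exists_short u.length u le_rfl h
  rw [path_append] at hp
  obtain ⟨z, hp, _⟩ := hp
  rw [path_append] at hp
  obtain ⟨z', _, hp⟩ := hp
  obtain ⟨w, hw1, hw2⟩ := exists_irred C.term (C.ex u')
  have hw3 : C.φ (FreeMonoid.ofList (C.ex u')) = C.φ (FreeMonoid.ofList w) := by
    clear hw2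
    induction hw1 with
    | refl => rfl
    | tail _ h2 ih => exact ih.trans (C.resp _ _ h2)
  have hT := hp.T
  rw [hw3] at hT
  obtain ⟨v, hv1, hv2⟩ := exists_decomp w.length w z' z le_rfl hw2 hT
  refine ⟨a ++ v ++ b, a, b, (u', v), ?_, rfl, rfl⟩
  rw [mem_RS]
  refine ⟨h2, h3, ?_, ?_, z', z, hp, hv1⟩
  · simp only; rw [hv2]; exact hw2
  · simp only; rw [hv2]; exact hw3

/-- Typed normal forms. -/
theorem norm (u : List (Fin C.N)) : ∀ x y, C.Path x u y →
    ∃ v, ReflTransGen (Step C.RS) u v ∧ C.Path x v y ∧ Irred C.RA (C.ex v) ∧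
      C.φ (FreeMonoid.ofList (C.ex u)) = C.φ (FreeMonoid.ofList (C.ex v)) := by
  induction u using (terminating_RS (C := C)).induction with
  | _ u ih =>
    intro x y hp
    by_cases h : Irred C.RA (C.ex u)
    · exact ⟨u, ReflTransGen.refl, hp, h, rfl⟩
    · obtain ⟨w, hw⟩ := exists_step hp h
      obtain ⟨v, h1, h2, h3, h4⟩ := ih w hw x y (path_step hw hp)
      exact ⟨v, ReflTransGen.head hw h1, h2, h3, (phi_step hw).trans h4⟩

/-- Typed confluence. -/
theorem typed_join {u v w : List (Fin C.N)} {x y : X} (hp : C.Path x u y)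
    (hv : Step C.RS u v) (hw : Step C.RS u w) :
    ∃ z, ReflTransGen (Step C.RS) v z ∧ ReflTransGen (Step C.RS) w z := by
  obtain ⟨v', h1, h2, h3, h4⟩ := norm v x y (path_step hv hp)
  obtain ⟨w', h1', h2', h3', h4'⟩ := norm w x y (path_step hw hp)
  have : v' = w' := by
    refine decomp_unique h2 h2' (C.uniq _ _ h3 h3' ?_)
    rw [← h4, ← h4', ← phi_step hv, ← phi_step hw]
  subst this
  exact ⟨v', h1, h1'⟩

theorem join_context {z z1 z2 : List (Fin C.N)} {x y : X} (a b : List (Fin C.N))
    (hp : C.Path x z y) (h1 : Step C.RS z z1) (h2 : Step C.RS z z2) :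
    ∃ t, ReflTransGen (Step C.RS) (a ++ z1 ++ b) t ∧
      ReflTransGen (Step C.RS) (a ++ z2 ++ b) t := by
  obtain ⟨t, ht1, ht2⟩ := typed_join hp h1 h2
  exact ⟨a ++ t ++ b, rtg_context a b ht1, rtg_context a b ht2⟩

/-- Local confluence, the case that the first occurrence starts first. -/
theorem local_aux {a b c d : List (Fin C.N)} {p q : List (Fin C.N) × List (Fin C.N)}
    (hp : p ∈ C.RS) (hq : q ∈ C.RS) (h : p.1 ++ b = c ++ q.1 ++ d) :
    ∃ t, ReflTransGen (Step C.RS) (a ++ p.2 ++ b) t ∧
      ReflTransGen (Step C.RS) (a ++ c ++ q.2 ++ d) t := by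
  have hp' := mem_RS.1 hp
  have hq' := mem_RS.1 hq
  obtain ⟨_, _, _, _, x, y, hx1, hx2⟩ := hp'
  obtain ⟨_, _, _, _, x', y', hx1', hx2'⟩ := hq'
  rw [List.append_assoc] at h
  rcases List.append_eq_append_iff.1 h with ⟨e, he1, he2⟩ | ⟨e, he1, he2⟩
  · -- disjoint: c = p.1 ++ e, b = e ++ (q.1 ++ d)
    refine ⟨a ++ p.2 ++ e ++ q.2 ++ d, ?_, ?_⟩
    · apply ReflTransGen.single
      refine ⟨a ++ p.2 ++ e, d, q, hq, ?_, rfl⟩
      rw [he2]; simp
    · apply ReflTransGen.single
      refine ⟨a, e ++ q.2 ++ d, p, hp, ?_, ?_⟩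
      · rw [he1]; simp
      · simp
  · -- p.1 = c ++ e, q.1 ++ d = e ++ b
    by_cases he0 : e = []
    · subst he0
      rw [List.append_nil] at he1
      rw [List.nil_append] at he2
      refine ⟨a ++ p.2 ++ q.2 ++ d, ?_, ?_⟩
      · apply ReflTransGen.single
        refine ⟨a ++ p.2, d, q, hq, ?_, rfl⟩
        rw [← he2]; simp
      · apply ReflTransGen.single
        refine ⟨a, q.2 ++ d, p, hp, ?_, ?_⟩
        · rw [he1]; simp
        · simp
    rcases List.append_eq_append_iff.1 he2 with ⟨f, hf1, hf2⟩ | ⟨f, hf1, hf2⟩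
    · -- e = q.1 ++ f, d = f ++ b: nested
      have hz : p.1 = c ++ q.1 ++ f := by rw [he1, hf1, List.append_assoc]
      obtain ⟨t, ht1, ht2⟩ := join_context (z := p.1) (z1 := p.2) (z2 := c ++ q.2 ++ f) a b hx1
        ⟨[], [], p, hp, by simp, by simp⟩ ⟨c, f, q, hq, hz, rfl⟩
      refine ⟨t, ht1, ?_⟩
      have : a ++ c ++ q.2 ++ d = a ++ (c ++ q.2 ++ f) ++ b := by rw [hf2]; simp
      rw [this]
      exact ht2
    · -- q.1 = e ++ f, b = f ++ d
      have hz : C.Path x (c ++ e ++ f) y' := by
        rw [← he1, path_append]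
        refine ⟨y, hx1, ?_⟩
        rw [he1, path_append] at hx1
        obtain ⟨z, hz1, hz2⟩ := hx1
        rw [hf1, path_append] at hx1'
        obtain ⟨z', hz1', hz2'⟩ := hx1'
        have e1 : z = x' := Path.start he0 hz2 hz1'
        subst e1
        have e2 : y = z' := Path.end_eq hz2 hz1'
        subst e2
        exact hz2'
      obtain ⟨t, ht1, ht2⟩ := join_context (z := c ++ e ++ f) (z1 := p.2 ++ f)
        (z2 := c ++ q.2) a d hz
        ⟨[], f, p, hp, by rw [he1]; simp, by simp⟩ ⟨c, [], q, hq, by rw [hf1]; simp, by simp⟩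
      refine ⟨t, ?_, ?_⟩
      · have : a ++ p.2 ++ b = a ++ (p.2 ++ f) ++ d := by rw [hf2]; simp
        rw [this]
        exact ht1
      · have : a ++ c ++ q.2 ++ d = a ++ (c ++ q.2) ++ d := by simp
        rw [this]
        exact ht2

theorem confluent_RS : Confluent C.RS := by
  refine newman terminating_RS ?_
  rintro u v w ⟨a, b, p, hp, h1, rfl⟩ ⟨a', b', q, hq, h2, rfl⟩
  have h : a ++ (p.1 ++ b) = a' ++ (q.1 ++ b') := by
    rw [← List.append_assoc, ← List.append_assoc, ← h1, ← h2]
  rcases List.append_eq_append_iff.1 h with ⟨c, hc1, hc2⟩ | ⟨c, hc1, hc2⟩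
  · have := local_aux (a := a) (b := b) (c := c) (d := b') hp hq (by rw [hc2]; simp)
    rw [hc1]
    exact this
  · obtain ⟨t, ht1, ht2⟩ := local_aux (a := a') (b := b') (c := c) (d := b) hq hp
      (by rw [hc2]; simp)
    rw [hc1]
    exact ⟨t, ht2, ht1⟩

end Core

end H1.RW
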