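import Pool.Agent.H1.RW.Build

/-!
# Free factors (MP_56d4a1_al)
-/

set_option autoImplicit false

namespace H1.RW

open Relation Monoid

section Gamma

variable {G K : Type} [Group G] [Group K]

/-- `h` lies in the first factor. -/
def InG (h : Coprod G K) : Prop := ∃ g : G, h = Coprod.inl g

theorem InG.mul_inl_iff {h : Coprod G K} (g : G) : InG (h * Coprod.inl g) ↔ InG h := by
  constructor
  · rintro ⟨g', hg'⟩
    refine ⟨g' * g⁻¹, ?_⟩
    rw [map_mul, ← hg', map_inv]
    group
  · rintro ⟨g', hg'⟩
    exact ⟨g' * g, by rw [hg', map_mul]⟩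

theorem InG.inl_mul_iff {h : Coprod G K} (g : G) : InG (Coprod.inl g * h) ↔ InG h := by
  constructor
  · rintro ⟨g', hg'⟩
    refine ⟨g⁻¹ * g', ?_⟩
    rw [map_mul, ← hg', map_inv]
    group
  · rintro ⟨g', hg'⟩
    exact ⟨g * g', by rw [hg', map_mul]⟩

open Classical in
/-- The right action of `G` on `G × (G * K)`. -/
noncomputable def rhoG : G →* (Function.End (G × Coprod G K))ᵐᵒᵖ where
  toFun g := MulOpposite.op (fun p => (if InG p.2 then p.1 * g else p.1, p.2 * Coprod.inl g))
  map_one' := by
    apply MulOpposite.unop_injective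
    funext p
    simp only [MulOpposite.unop_op, map_one, mul_one, ite_self, MulOpposite.unop_one]
    rfl
  map_mul' g g' := by
    apply MulOpposite.unop_injective
    funext p
    change _ = (if InG (p.2 * Coprod.inl g) then (if InG p.2 then p.1 * g else p.1) * g' else
      (if InG p.2 then p.1 * g else p.1), p.2 * Coprod.inl g * Coprod.inl g')
    rw [InG.mul_inl_iff]
    by_cases h : InG p.2
    · simp only [MulOpposite.unop_op, if_pos h, map_mul, mul_assoc]
    · simp only [MulOpposite.unop_op, if_neg h, map_mul, mul_assoc]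

/-- The right action of `K` on `G × (G * K)`. -/
def rhoK : K →* (Function.End (G × Coprod G K))ᵐᵒᵖ where
  toFun k := MulOpposite.op (fun p => (p.1, p.2 * Coprod.inr k))
  map_one' := by
    apply MulOpposite.unop_injective
    funext p
    simp only [MulOpposite.unop_op, map_one, mul_one, MulOpposite.unop_one]
    rfl
  map_mul' k k' := by
    apply MulOpposite.unop_injective
    funext p
    change _ = (p.1, p.2 * Coprod.inr k * Coprod.inr k')
    simp only [MulOpposite.unop_op, map_mul, mul_assoc]

/-- The right action of `G * K` on `G × (G * K)`. -/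
noncomputable def rho : Coprod G K →* (Function.End (G × Coprod G K))ᵐᵒᵖ :=
  Coprod.lift rhoG rhoK

theorem rho_mul (h h' : Coprod G K) (p : G × Coprod G K) :
    (rho (h * h')).unop p = (rho h').unop ((rho h).unop p) := by
  rw [map_mul]
  rfl

open Classical in
theorem rho_inl (g : G) (p : G × Coprod G K) :
    (rho (Coprod.inl g)).unop p =
      (if InG p.2 then p.1 * g else p.1, p.2 * Coprod.inl g) := by
  unfold rho
  rw [Coprod.lift_apply_inl]
  rfl

theorem rho_inr (k : K) (p : G × Coprod G K) :
    (rho (Coprod.inr k)).unop p = (p.1, p.2 * Coprod.inr k) := by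
  unfold rho
  rw [Coprod.lift_apply_inr]
  rfl

theorem rho_snd (h : Coprod G K) : ∀ p : G × Coprod G K,
    ((rho h).unop p).2 = p.2 * h := by
  induction h using Coprod.induction_on with
  | inl g => intro p; rw [rho_inl]
  | inr k => intro p; rw [rho_inr]
  | mul h h' ih ih' =>
    intro p
    rw [rho_mul, ih', ih, mul_assoc]

theorem rho_left (g : G) (h : Coprod G K) : ∀ p : G × Coprod G K,
    (rho h).unop (g * p.1, Coprod.inl g * p.2) =
      (g * ((rho h).unop p).1, Coprod.inl g * ((rho h).unop p).2) := by
  induction h using Coprod.induction_on with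
  | inl g' =>
    intro p
    rw [rho_inl, rho_inl]
    by_cases h : InG p.2
    · have h' : InG (Coprod.inl g * p.2) := (InG.inl_mul_iff g).2 h
      simp only [if_pos h, if_pos h', mul_assoc]
    · have h' : ¬ InG (Coprod.inl g * p.2) := fun hh => h ((InG.inl_mul_iff g).1 hh)
      simp only [if_neg h, if_neg h', mul_assoc]
  | inr k =>
    intro p
    rw [rho_inr, rho_inr]
    simp only [mul_assoc]
  | mul h h' ih ih' =>
    intro p
    rw [rho_mul, rho_mul, ih, ih']

/-- The leading `G`-part. -/
noncomputable def gam (h : Coprod G K) : G := ((rho h).unop (1, 1)).1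

theorem gam_mul_inr (h : Coprod G K) (k : K) : gam (h * Coprod.inr k) = gam h := by
  unfold gam
  rw [rho_mul, rho_inr]

theorem gam_mul_inl {h : Coprod G K} (hh : ¬ InG h) (g : G) :
    gam (h * Coprod.inl g) = gam h := by
  unfold gam
  rw [rho_mul, rho_inl, rho_snd]
  have h' : ¬ InG (1 * h) := by rwa [one_mul]
  simp only [if_neg h']

theorem gam_inl (g : G) : gam (Coprod.inl g : Coprod G K) = g := by
  unfold gam
  rw [rho_inl]
  simp only
  rw [if_pos ⟨1, by simp⟩, one_mul]

theorem gam_inl_mul (g : G) (h : Coprod G K) : gam (Coprod.inl g * h) = g * gam h := by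
  unfold gam
  rw [rho_mul, rho_inl]
  simp only
  rw [if_pos ⟨1, by simp⟩]
  have := rho_left g h (1, 1)
  simp only [mul_one, one_mul] at this ⊢
  rw [this]

/-- The value of a list of pairs. -/
def val (l : List (K × G)) : Coprod G K :=
  (l.map (fun p => (Coprod.inr p.1 * Coprod.inl p.2 : Coprod G K))).prod

theorem val_nil : val ([] : List (K × G)) = 1 := rfl

theorem val_cons (p : K × G) (l : List (K × G)) :
    val (p :: l) = Coprod.inr p.1 * Coprod.inl p.2 * val l := by
  simp [val]

/-- Walking without touching `G`. -/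
theorem walkA (l : List (K × G)) : ∀ h : Coprod G K, ¬ InG h →
    (∀ i, 1 ≤ i → i < l.length → ¬ InG (h * val (l.take i))) → ¬ InG (h * val l) →
    gam (h * val l) = gam h := by
  induction l with
  | nil => intro h _ _ _; rw [val_nil, mul_one]
  | cons p l ih =>
    intro h h1 h2 h3
    have h4 : ¬ InG (h * (Coprod.inr p.1 * Coprod.inl p.2)) := by
      by_cases hl : l = []
      · subst hl
        rw [val_cons, val_nil, mul_one] at h3
        exact h3
      · have := h2 1 le_rfl (by
          rw [List.length_cons]
          have := List.length_pos_iff.2 hl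
          omega)
        rw [List.take_succ_cons, List.take_zero, val_cons, val_nil, mul_one] at this
        exact this
    have h5 : ¬ InG (h * Coprod.inr p.1) := by
      rw [← mul_assoc, InG.mul_inl_iff] at h4
      exact h4
    have h6 : gam (h * (Coprod.inr p.1 * Coprod.inl p.2)) = gam h := by
      rw [← mul_assoc, gam_mul_inl h5, gam_mul_inr]
    rw [val_cons, ← mul_assoc] at h3 ⊢
    rw [ih _ h4 ?_ h3, h6]
    intro i hi1 hi2
    have := h2 (i + 1) (by omega) (by rw [List.length_cons]; omega)
    rw [List.take_succ_cons, val_cons, ← mul_assoc] at this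
    exact this

/-- The possible ends after the first visit to `G`. -/
def ends : List (K × G) → List (Coprod G K)
  | [] => []
  | p :: l => (Coprod.inl p.2 * val l) :: ends l

/-- Walking until the first visit to `G`. -/
theorem walkB (l : List (K × G)) : ∀ h : Coprod G K, ¬ InG h →
    gam (h * val l) = gam h ∨ ∃ d ∈ ends l, h * val l = Coprod.inl (gam h) * d := by
  induction l with
  | nil => intro h _; left; rw [val_nil, mul_one]
  | cons p l ih =>
    intro h h1
    by_cases h5 : InG (h * Coprod.inr p.1)
    · right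
      obtain ⟨g, hg⟩ := h5
      have hgg : g = gam h := by
        rw [← gam_mul_inr h p.1, hg, gam_inl]
      refine ⟨Coprod.inl p.2 * val l, List.mem_cons_self, ?_⟩
      rw [val_cons, ← hgg, ← hg]
      simp only [mul_assoc]
    · have h4 : ¬ InG (h * (Coprod.inr p.1 * Coprod.inl p.2)) := by
        rw [← mul_assoc, InG.mul_inl_iff]
        exact h5
      have h6 : gam (h * (Coprod.inr p.1 * Coprod.inl p.2)) = gam h := by
        rw [← mul_assoc, gam_mul_inl h5, gam_mul_inr]
      rw [val_cons, ← mul_assoc]
      rcases ih _ h4 with h7 | ⟨d, hd1, hd2⟩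
      · left; rw [h7, h6]
      · right
        refine ⟨d, List.mem_cons_of_mem _ hd1, ?_⟩
        rw [hd2, h6]

end Gamma

/-- The main theorem on free factors. -/
theorem freeFactor (G K : Type) [Group G] [Group K] (n : ℕ)
    (R : List (List (Fin n) × List (Fin n))) (hT : Terminating R) (hC : Confluent R)
    (e : Coprod G K ≃* (ruleCon R).Quotient) (g0 : Fin n → G) (s : Fin n → List (K × G))
    (hs : ∀ a, e (Coprod.inl (g0 a) * val (s a)) = cls R [a]) :
    ∃ m, m ≤ ∑ a, ((s a).length - 1) ∧ HasFCRS (Coprod G (FreeGroup (Fin m))) := by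
  classical
  obtain ⟨φ, h2, h3, h4, h5⟩ := data_of_equiv hT hC e
  have hφ : ∀ a, φ (FreeMonoid.ofList [a]) = Coprod.inl (g0 a) * val (s a) := by
    intro a
    rw [h2, ← MulEquiv.symm_apply_apply e (Coprod.inl (g0 a) * val (s a)), hs a]
    rfl
  set Gs : Subgroup (Coprod G K) := (Coprod.inl : G →* Coprod G K).range with hGs
  let Q := Quotient (QuotientGroup.rightRel Gs)
  let q0 : Q := Quotient.mk _ (1 : Coprod G K)
  let pos : Fin n → ℕ → Coprod G K := fun a i => Coprod.inl (g0 a) * val ((s a).take i)
  let S : Finset Q := insert q0 (Finset.univ.biUnion (fun a : Fin n =>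
    (Finset.Ico 1 (s a).length).image (fun i => (Quotient.mk _ (pos a i)⁻¹ : Q))))
  have hScard : S.card ≤ (∑ a, ((s a).length - 1)) + 1 := by
    refine (Finset.card_insert_le _ _).trans ?_
    refine Nat.add_le_add_right ?_ 1
    refine Finset.card_biUnion_le.trans ?_
    refine Finset.sum_le_sum ?_
    intro a _
    refine Finset.card_image_le.trans ?_
    rw [Nat.card_Ico]
  have hq0 : q0 ∈ S := Finset.mem_insert_self _ _
  let X := {q : Q // q ∈ S}
  let x0 : X := ⟨q0, hq0⟩
  let r : X → Coprod G K := fun x => if x = x0 then 1 else x.1.out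
  have hr : ∀ x : X, (Quotient.mk (QuotientGroup.rightRel Gs) (r x) : Q) = x.1 := by
    intro x
    by_cases hx : x = x0
    · simp only [r, if_pos hx]
      rw [hx]
    · simp only [r, if_neg hx]
      exact Quotient.out_eq x.1
  have hrx0 : r x0 = 1 := by simp only [r, if_pos rfl]
  -- the union of the cosets
  let V : Coprod G K → Prop := fun h => ∃ (y : X) (g : G), h = Coprod.inl g * r y
  have hV : ∀ h : Coprod G K, V h ↔ (Quotient.mk (QuotientGroup.rightRel Gs) h : Q) ∈ S := by
    intro h
    constructor
    · rintro ⟨y, g, hy⟩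
      have : (Quotient.mk (QuotientGroup.rightRel Gs) h : Q) = y.1 := by
        rw [← hr y]
        apply Quotient.sound
        change QuotientGroup.rightRel Gs h (r y)
        rw [QuotientGroup.rightRel_apply, hy]
        refine ⟨g⁻¹, ?_⟩
        rw [map_inv]
        group
      rw [this]
      exact y.2
    · intro hh
      refine ⟨⟨_, hh⟩, ?_⟩
      have h6 : QuotientGroup.rightRel Gs (r ⟨_, hh⟩) h := Quotient.exact (hr ⟨_, hh⟩)
      rw [QuotientGroup.rightRel_apply] at h6
      obtain ⟨g, hg⟩ := h6
      refine ⟨g, ?_⟩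
      rw [hg]
      group
  have hVG : ∀ h, InG h → V h := by
    rintro h ⟨g, rfl⟩
    exact ⟨x0, g, by rw [hrx0, mul_one]⟩
  have hVcross : ∀ h, ¬ V h → ∀ a i, 1 ≤ i → i < (s a).length → ¬ InG (h * pos a i) := by
    rintro h hh a i h1 h2 ⟨g, hg⟩
    apply hh
    rw [hV]
    apply Finset.mem_insert_of_mem
    rw [Finset.mem_biUnion]
    refine ⟨a, Finset.mem_univ _, ?_⟩
    rw [Finset.mem_image]
    refine ⟨i, Finset.mem_Ico.2 ⟨h1, h2⟩, ?_⟩
    apply Quotient.sound
    change QuotientGroup.rightRel Gs _ _
    rw [QuotientGroup.rightRel_apply]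
    refine ⟨g, ?_⟩
    rw [← hg]
    group
  -- steps outside `V` do not change `gam`
  have hstep : ∀ h a, ¬ V h → ¬ V (h * φ (FreeMonoid.ofList [a])) →
      gam (h * φ (FreeMonoid.ofList [a])) = gam h := by
    intro h a h1 h2
    have h6 : ¬ InG h := fun hh => h1 (hVG h hh)
    have h7 : ¬ InG (h * Coprod.inl (g0 a)) := by rwa [InG.mul_inl_iff]
    rw [hφ, ← mul_assoc] at h2 ⊢
    rw [walkA (s a) _ h7 ?_ (fun hh => h2 (hVG _ hh)), gam_mul_inl h6]
    intro i hi1 hi2
    rw [mul_assoc]
    exact hVcross h h1 a i hi1 hi2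
  have hsteps : ∀ (w : List (Fin n)) h, ¬ V h →
      (∀ p t, p ++ t = w → ¬ V (h * φ (FreeMonoid.ofList p))) →
      gam (h * φ (FreeMonoid.ofList w)) = gam h := by
    intro w
    induction w using List.reverseRecOn with
    | nil => intro h _ _; rw [FreeMonoid.ofList_nil, map_one, mul_one]
    | append_singleton w a ih =>
      intro h h1 h2
      have h6 := h2 w [a] rfl
      have h7 := h2 (w ++ [a]) [] (by simp)
      rw [FreeMonoid.ofList_append, map_mul, ← mul_assoc] at h7 ⊢
      rw [hstep _ a h6 h7]
      refine ih h h1 ?_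
      intro p t hpt
      exact h2 p (t ++ [a]) (by rw [← List.append_assoc, hpt])
  -- the possible end points
  let E : X → Set (Coprod G K) := fun x =>
    (Set.range (fun a : Fin n => r x * φ (FreeMonoid.ofList [a]))) ∪
    ((⋃ a : Fin n, ⋃ c : Fin n,
      (fun d => Coprod.inl (gam (r x * φ (FreeMonoid.ofList [a]))) * d) ''
        {d | d ∈ ends (s c)}) ∪
     (⋃ a : Fin n, Set.range (fun y : X =>
      Coprod.inl (gam (r x * φ (FreeMonoid.ofList [a])) * (gam (r y))⁻¹) * r y)))
  have hEfin : ∀ x, (E x).Finite := by
    intro x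
    refine (Set.finite_range _).union (Set.Finite.union ?_ ?_)
    · refine Set.finite_iUnion fun a => Set.finite_iUnion fun c => Set.Finite.image _ ?_
      exact List.finite_toSet _
    · exact Set.finite_iUnion fun a => Set.finite_range _
  obtain ⟨C⟩ := exists_core R hT φ h3 h4 h5 (Coprod.inl : G →* Coprod G K)
    Coprod.inl_injective x0 r hrx0 (by
      intro x y g hg
      apply Subtype.ext
      rw [← hr x, ← hr y]
      apply Quotient.sound
      change QuotientGroup.rightRel Gs (r x) (r y)
      rw [QuotientGroup.rightRel_apply, hg]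
      refine ⟨g⁻¹, ?_⟩
      rw [map_inv]
      group) (by
      have htfin : {p : X × Coprod G K | p.2 ∈ E p.1}.Finite := by
        have : {p : X × Coprod G K | p.2 ∈ E p.1} = ⋃ x : X, (Prod.mk x) '' (E x) := by
          ext ⟨x, h⟩
          simp
        rw [this]
        exact Set.finite_iUnion fun x => (hEfin x).image _
      refine Set.Finite.of_injOn (f := fun p : X × List (Fin n) =>
        (p.1, r p.1 * φ (FreeMonoid.ofList p.2))) ?_ ?_ htfin
      · rintro ⟨x, w⟩ ⟨hw1, hw2, ⟨y, g, hw3⟩, hw4⟩
        change r x * φ (FreeMonoid.ofList w) ∈ E x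
        cases w with
        | nil => exact absurd rfl hw1
        | cons a w =>
          rcases List.eq_nil_or_concat w with rfl | ⟨m, c, hmc⟩
          · exact Or.inl ⟨a, rfl⟩
          rw [List.concat_eq_append] at hmc
          subst hmc
          · right
            simp only at hw3 hw4
            have hv1 : ∀ p t, p ++ t = m →
                ¬ V (r x * φ (FreeMonoid.ofList [a]) * φ (FreeMonoid.ofList p)) := by
              rintro p t hpt ⟨z, g', hz⟩
              refine hw4 (a :: p) (t ++ [c]) (by rw [← hpt]; simp) (by simp) (by simp) z g' ?_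
              rw [FreeMonoid.ofList_cons, map_mul, ← mul_assoc]
              exact hz
            have hv2 := hsteps m (r x * φ (FreeMonoid.ofList [a])) (by
              have := hv1 [] m rfl
              rwa [FreeMonoid.ofList_nil, map_one, mul_one] at this) hv1
            have hv3 := hv1 m [] (by simp)
            set h := r x * φ (FreeMonoid.ofList [a]) * φ (FreeMonoid.ofList m) with hh
            have hv4 : ¬ InG h := fun hh => hv3 (hVG h hh)
            have hv5 : ¬ InG (h * Coprod.inl (g0 c)) := by rwa [InG.mul_inl_iff]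
            have hend : r x * φ (FreeMonoid.ofList (a :: (m ++ [c]))) =
                h * Coprod.inl (g0 c) * val (s c) := by
              rw [FreeMonoid.ofList_cons, FreeMonoid.ofList_append, map_mul, map_mul, hφ c, hh]
              simp only [mul_assoc]
              rfl
            rw [hend]
            have hg1 : gam (h * Coprod.inl (g0 c)) =
                gam (r x * φ (FreeMonoid.ofList [a])) := by
              rw [gam_mul_inl hv4, hv2]
            rcases walkB (s c) _ hv5 with hB | ⟨d, hd1, hd2⟩
            · right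
              rw [Set.mem_iUnion]
              refine ⟨a, y, ?_⟩
              have e1 : h * Coprod.inl (g0 c) * val (s c) = Coprod.inl g * r y := by
                rw [← hend]; exact hw3
              have e2 : g * gam (r y) = gam (r x * φ (FreeMonoid.ofList [a])) := by
                rw [← gam_inl_mul, ← e1, hB, hg1]
              simp only
              rw [e1, ← e2]
              congr 2
              group
            · left
              rw [Set.mem_iUnion]
              refine ⟨a, ?_⟩
              rw [Set.mem_iUnion]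
              refine ⟨c, d, hd1, ?_⟩
              simp only
              rw [hd2, hg1]
      · rintro ⟨x, w⟩ ⟨_, hw2, _, _⟩ ⟨x', w'⟩ ⟨_, hw2', _, _⟩ heq
        simp only [Prod.mk.injEq] at heq
        obtain ⟨rfl, heq⟩ := heq
        rw [h5 w w' hw2 hw2' (mul_left_cancel heq)])
  have hcX : Nat.card X = S.card := by
    rw [Nat.card_eq_fintype_card, Fintype.card_coe]
  have hSpos : 0 < S.card := Finset.card_pos.2 ⟨q0, hq0⟩
  exact ⟨S.card - 1, by omega, C.hasFCRS_fin (S.card - 1) (by rw [hcX]; omega)⟩

/-- Every element of `G * K` has an expression of the required form. -/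
theorem exists_expr {G K : Type} [Group G] [Group K] (h : Coprod G K) :
    ∃ (g : G) (l : List (K × G)), h = Coprod.inl g * val l := by
  suffices H : ∀ h' : Coprod G K, (∃ (g : G) (l : List (K × G)), h' = Coprod.inl g * val l) →
      ∃ (g : G) (l : List (K × G)), h * h' = Coprod.inl g * val l by
    obtain ⟨g, l, hh⟩ := H 1 ⟨1, [], by rw [val_nil, map_one, mul_one]⟩
    exact ⟨g, l, by rw [← hh, mul_one]⟩
  induction h using Coprod.induction_on with
  | inl g =>
    rintro h' ⟨g', l, rfl⟩
    exact ⟨g * g', l, by rw [map_mul, mul_assoc]⟩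
  | inr k =>
    rintro h' ⟨g', l, rfl⟩
    refine ⟨1, (k, g') :: l, ?_⟩
    rw [val_cons, map_one, one_mul]
    simp only [mul_assoc]
  | mul h1 h2 ih1 ih2 =>
    intro h' hh'
    rw [mul_assoc]
    exact ih1 _ (ih2 _ hh')

theorem freeFactor' (G K : Type) [Group G] [Group K] (h : HasFCRS (Coprod G K)) :
    ∃ m, HasFCRS (Coprod G (FreeGroup (Fin m))) := by
  obtain ⟨n, R, h1, h2, ⟨e⟩⟩ := h
  have hex : ∀ a : Fin n, ∃ (g : G) (l : List (K × G)),
      e.symm (cls R [a]) = Coprod.inl g * val l := fun a => exists_expr _
  choose g0 s hs using hex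
  obtain ⟨m, _, hm⟩ := freeFactor G K n R h1 h2 e g0 s (fun a => by
    rw [← hs a, MulEquiv.apply_symm_apply])
  exact ⟨m, hm⟩

end H1.RW
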