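import Pool.Agent.H1.RW.Core

/-!
# The monoid presented by the new system is `G * F` (MP_56d4a1_al)
-/

set_option autoImplicit false

namespace H1.RW

open Relation

namespace Core

variable {A G H X : Type} [Group G] [Group H] (C : Core A G H X)

/-- The presented monoid. -/
abbrev Mon : Type := (ruleCon C.RS).Quotient

open Classical in
/-- The class of the typed words with start `x` and value `h`. -/
noncomputable def P (x : X) (h : H) : C.Mon :=
  if hex : ∃ u y, C.Path x u y ∧ C.φ (FreeMonoid.ofList (C.ex u)) = h then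
    cls C.RS hex.choose else 1

variable {C}

theorem P_spec {x y : X} {u : List (Fin C.N)} {h : H} (hp : C.Path x u y)
    (hh : C.φ (FreeMonoid.ofList (C.ex u)) = h) : cls C.RS u = C.P x h := by
  have hex : ∃ u y, C.Path x u y ∧ C.φ (FreeMonoid.ofList (C.ex u)) = h := ⟨u, y, hp, hh⟩
  unfold P
  rw [dif_pos hex]
  obtain ⟨y', hp', hh'⟩ := hex.choose_spec
  obtain ⟨v, h1, h2, h3, h4⟩ := norm u x y hp
  obtain ⟨v', h1', h2', h3', h4'⟩ := norm hex.choose x y' hp'
  have : v = v' := by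
    refine decomp_unique h2 h2' (C.uniq _ _ h3 h3' ?_)
    rw [← h4, ← h4', hh, hh']
  subst this
  rw [cls_eq_of_rtg h1, cls_eq_of_rtg h1']

theorem exists_path {x y : X} {h : H} (hT : C.T x h y) :
    ∃ u, C.Path x u y ∧ C.φ (FreeMonoid.ofList (C.ex u)) = h := by
  obtain ⟨w0, hw0⟩ := C.surj h
  obtain ⟨w, hw1, hw2⟩ := exists_irred C.term w0.toList
  have hw3 : C.φ w0 = C.φ (FreeMonoid.ofList w) := by
    clear hw2
    induction hw1 with
    | refl => rfl
    | tail _ h2 ih => exact ih.trans (C.resp _ _ h2)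
  have hw4 : C.φ (FreeMonoid.ofList w) = h := hw3.symm.trans hw0
  obtain ⟨u, hu1, hu2⟩ := exists_decomp w.length w x y le_rfl hw2 (by rw [hw4]; exact hT)
  exact ⟨u, hu1, by rw [hu2]; exact hw4⟩

theorem P_mul {x y z : X} {h h' : H} (h1 : C.T x h y) (h2 : C.T y h' z) :
    C.P x h * C.P y h' = C.P x (h * h') := by
  obtain ⟨u, hu1, hu2⟩ := exists_path h1
  obtain ⟨v, hv1, hv2⟩ := exists_path h2
  rw [← P_spec hu1 hu2, ← P_spec hv1 hv2, ← cls_append]
  refine P_spec (path_append.2 ⟨y, hu1, hv1⟩) ?_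
  rw [ex_append, FreeMonoid.ofList_append, map_mul, hu2, hv2]

theorem P_one (x : X) : C.P x 1 = 1 := by
  rw [← cls_nil (R := C.RS)]
  have hp : C.Path x [] x := rfl
  refine (P_spec hp ?_).symm
  rw [ex_nil, FreeMonoid.ofList_nil, map_one]

/-- The free generators. -/
abbrev X' (C : Core A G H X) : Type := {x : X // x ≠ C.x0}

/-- The target group. -/
abbrev Tgt (C : Core A G H X) : Type := Monoid.Coprod G (FreeGroup C.X')

open Classical in
/-- The elements `ξ x`. -/
noncomputable def xi (C : Core A G H X) (x : X) : C.Tgt :=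
  if h : x = C.x0 then 1 else Monoid.Coprod.inr (FreeGroup.of ⟨x, h⟩)

theorem xi_x0 : C.xi C.x0 = 1 := by unfold xi; rw [dif_pos rfl]

theorem xi_ne {x : X} (h : x ≠ C.x0) : C.xi x = Monoid.Coprod.inr (FreeGroup.of ⟨x, h⟩) := by
  unfold xi; rw [dif_neg h]

/-- The homomorphism to `G * F` on the free monoid. -/
noncomputable def Phi0 (C : Core A G H X) : FreeMonoid (Fin C.N) →* C.Tgt :=
  FreeMonoid.lift (fun b => (C.xi (C.src b))⁻¹ * Monoid.Coprod.inl (C.wd_T b).choose *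
    C.xi (C.tgt b))

theorem Phi0_path {x y : X} {u : List (Fin C.N)} (hp : C.Path x u y) :
    ∃ g, C.r x * C.φ (FreeMonoid.ofList (C.ex u)) = C.ι g * C.r y ∧
      C.Phi0 (FreeMonoid.ofList u) = (C.xi x)⁻¹ * Monoid.Coprod.inl g * C.xi y := by
  induction u generalizing x with
  | nil =>
    have : x = y := hp
    subst this
    refine ⟨1, ?_, ?_⟩
    · rw [ex_nil, FreeMonoid.ofList_nil, map_one, map_one, mul_one, one_mul]
    · rw [FreeMonoid.ofList_nil, map_one, map_one]; group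
  | cons b u ih =>
    obtain ⟨g, hg1, hg2⟩ := ih hp.2
    have hb := (C.wd_T b).choose_spec
    have h0 : C.Phi0 (FreeMonoid.of b) = (C.xi (C.src b))⁻¹ *
          Monoid.Coprod.inl (C.wd_T b).choose * C.xi (C.tgt b) := by
      unfold Phi0
      rw [FreeMonoid.lift_eval_of]
    generalize (C.wd_T b).choose = g0 at hb h0
    rw [hp.1] at hb h0
    refine ⟨g0 * g, ?_, ?_⟩
    · rw [ex_cons, FreeMonoid.ofList_append, map_mul, ← mul_assoc, hb, mul_assoc, hg1,
        map_mul, mul_assoc]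
    · rw [FreeMonoid.ofList_cons, map_mul, hg2, h0, map_mul]
      group

theorem Phi0_path' {x y : X} {u : List (Fin C.N)} {h : H} {g : G} (hp : C.Path x u y)
    (hh : C.φ (FreeMonoid.ofList (C.ex u)) = h) (hg : C.r x * h = C.ι g * C.r y) :
    C.Phi0 (FreeMonoid.ofList u) = (C.xi x)⁻¹ * Monoid.Coprod.inl g * C.xi y := by
  obtain ⟨g', hg1, hg2⟩ := Phi0_path hp
  have : g' = g := by
    apply C.inj
    rw [hh, hg] at hg1
    exact (mul_right_cancel hg1).symm
  rw [hg2, this]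

/-- The homomorphism to `G * F`. -/
noncomputable def Phi (C : Core A G H X) : C.Mon →* C.Tgt :=
  (ruleCon C.RS).lift C.Phi0 (by
    unfold ruleCon
    rw [Con.conGen_le]
    rintro a b ⟨p, hp, rfl, rfl⟩
    rw [mem_RS] at hp
    obtain ⟨_, _, _, h4, x, y, h5, h6⟩ := hp
    change C.Phi0 _ = C.Phi0 _
    obtain ⟨g, hg1, hg2⟩ := Phi0_path h5
    rw [hg2, Phi0_path' h6 h4.symm hg1])

theorem Phi_cls (u : List (Fin C.N)) : C.Phi (cls C.RS u) = C.Phi0 (FreeMonoid.ofList u) := rfl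

theorem Phi_P {x y : X} {h : H} {g : G} (hg : C.r x * h = C.ι g * C.r y) :
    C.Phi (C.P x h) = (C.xi x)⁻¹ * Monoid.Coprod.inl g * C.xi y := by
  obtain ⟨u, hu1, hu2⟩ := exists_path (C := C) (x := x) (y := y) (h := h) ⟨g, hg⟩
  rw [← P_spec hu1 hu2, Phi_cls]
  exact Phi0_path' hu1 hu2 hg

/-- `G` maps to the presented monoid. -/
noncomputable def PsiG (C : Core A G H X) : G →* C.Mon where
  toFun g := C.P C.x0 (C.ι g)
  map_one' := by rw [map_one]; exact P_one _
  map_mul' a b := by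
    rw [map_mul]
    exact (P_mul (y := C.x0) (z := C.x0) ⟨a, by rw [C.r_x0]; group⟩
      ⟨b, by rw [C.r_x0]; group⟩).symm

theorem T_r (x : X) : C.T C.x0 (C.r x) x := ⟨1, by rw [C.r_x0, map_one]⟩

/-- The units `ξ x`. -/
noncomputable def unitX (C : Core A G H X) (x : X) : C.Monˣ where
  val := C.P C.x0 (C.r x)
  inv := C.P x (C.r x)⁻¹
  val_inv := by
    rw [P_mul (T_r x) (T_r x).inv, mul_inv_cancel]; exact P_one _
  inv_val := by
    rw [P_mul (T_r x).inv (T_r x), inv_mul_cancel]; exact P_one _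

/-- The free group maps to the presented monoid. -/
noncomputable def PsiF (C : Core A G H X) : FreeGroup C.X' →* C.Mon :=
  (Units.coeHom C.Mon).comp (FreeGroup.lift (fun x : C.X' => C.unitX x.1))

/-- `G * F` maps to the presented monoid. -/
noncomputable def Psi (C : Core A G H X) : C.Tgt →* C.Mon :=
  Monoid.Coprod.lift C.PsiG C.PsiF

theorem Psi_inl (g : G) : C.Psi (Monoid.Coprod.inl g) = C.P C.x0 (C.ι g) := by
  unfold Psi
  rw [Monoid.Coprod.lift_apply_inl]
  rfl

theorem Psi_xi (x : X) : C.Psi (C.xi x) = C.P C.x0 (C.r x) := by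
  by_cases h : x = C.x0
  · rw [h, xi_x0, map_one, C.r_x0]
    exact (P_one _).symm
  · rw [xi_ne h]
    unfold Psi
    rw [Monoid.Coprod.lift_apply_inr]
    unfold PsiF
    rw [MonoidHom.comp_apply, FreeGroup.lift_apply_of]
    rfl

theorem Psi_xi_inv (x : X) : C.Psi (C.xi x)⁻¹ = C.P x (C.r x)⁻¹ := by
  have h1 : C.Psi (C.xi x)⁻¹ * C.Psi (C.xi x) = 1 := by
    rw [← map_mul, inv_mul_cancel, map_one]
  have h2 : C.Psi (C.xi x) * C.P x (C.r x)⁻¹ = 1 := by
    rw [Psi_xi, P_mul (T_r x) (T_r x).inv, mul_inv_cancel]; exact P_one _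
  calc C.Psi (C.xi x)⁻¹ = C.Psi (C.xi x)⁻¹ * (C.Psi (C.xi x) * C.P x (C.r x)⁻¹) := by
        rw [h2, mul_one]
    _ = C.P x (C.r x)⁻¹ := by rw [← mul_assoc, h1, one_mul]

theorem Phi_comp_Psi : C.Phi.comp C.Psi = MonoidHom.id _ := by
  apply Monoid.Coprod.hom_ext
  · ext g
    simp only [MonoidHom.comp_apply, MonoidHom.id_apply]
    rw [Psi_inl, Phi_P (y := C.x0) (g := g) (by rw [C.r_x0]; group), xi_x0]
    group
  · ext x
    simp only [MonoidHom.comp_apply, MonoidHom.id_apply]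
    rw [← xi_ne x.2, Psi_xi, Phi_P (y := x.1) (g := 1) (by rw [C.r_x0, map_one]), xi_x0, map_one]
    group

theorem Psi_Phi0 (b : Fin C.N) : C.Psi (C.Phi0 (FreeMonoid.of b)) = cls C.RS [b] := by
  have hp : C.Path (C.src b) [b] (C.tgt b) := ⟨rfl, rfl⟩
  obtain ⟨g, hg1, hg2⟩ := Phi0_path hp
  have e : FreeMonoid.of b = FreeMonoid.ofList [b] := rfl
  rw [e, hg2, map_mul, map_mul, Psi_xi_inv, Psi_inl, Psi_xi]
  have t1 := (T_r (C := C) (C.src b)).inv
  have t2 : C.T C.x0 (C.ι g) C.x0 := ⟨g, by rw [C.r_x0]; group⟩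
  have t3 := T_r (C := C) (C.tgt b)
  rw [P_mul t1 t2, P_mul (t1.mul t2) t3]
  have : (C.r (C.src b))⁻¹ * C.ι g * C.r (C.tgt b) =
      C.φ (FreeMonoid.ofList (C.ex [b])) := by
    rw [mul_assoc, ← hg1]; group
  rw [this]
  exact (P_spec hp rfl).symm

theorem Psi_comp_Phi : C.Psi.comp C.Phi = MonoidHom.id _ := by
  apply Con.hom_ext
  apply FreeMonoid.hom_eq
  intro b
  exact Psi_Phi0 b

/-- The isomorphism. -/
noncomputable def iso (C : Core A G H X) : C.Tgt ≃* C.Mon :=
  MonoidHom.toMulEquiv C.Psi C.Phi Phi_comp_Psi Psi_comp_Phi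

/-- The main theorem on cores. -/
theorem hasFCRS (C : Core A G H X) : HasFCRS C.Tgt :=
  ⟨C.N, C.RS, terminating_RS, confluent_RS, ⟨C.iso⟩⟩

end Core

theorem HasFCRS.congr {M M' : Type} [Monoid M] [Monoid M'] (e : M ≃* M') (h : HasFCRS M) :
    HasFCRS M' := by
  obtain ⟨n, R, h1, h2, ⟨f⟩⟩ := h
  exact ⟨n, R, h1, h2, ⟨e.symm.trans f⟩⟩

/-- `G * F` for free groups on equinumerous sets. -/
noncomputable def coprodCongr (G : Type) [Group G] {α β : Type} (e : α ≃ β) :
    Monoid.Coprod G (FreeGroup α) ≃* Monoid.Coprod G (FreeGroup β) :=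
  MulEquiv.coprodCongr (MulEquiv.refl G) (FreeGroup.freeGroupCongr e)

theorem Core.hasFCRS_fin {A G H X : Type} [Group G] [Group H] (C : Core A G H X) [Finite X]
    (m : ℕ) (hm : Nat.card X = m + 1) : HasFCRS (Monoid.Coprod G (FreeGroup (Fin m))) := by
  classical
  have : Fintype X := Fintype.ofFinite X
  have hc : Fintype.card {x : X // x ≠ C.x0} = m := by
    rw [Fintype.card_subtype_compl, Fintype.card_subtype_eq, ← Nat.card_eq_fintype_card, hm]
    rfl
  exact C.hasFCRS.congr (coprodCongr G (Fintype.equivFinOfCardEq hc))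

end H1.RW
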